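import Mathlib

/-!
# Project A1 (MP_859019_mp): series / integral exchange, uniqueness of coefficients, limits
-/

set_option autoImplicit false

open scoped BigOperators Topology
open MeasureTheory Set Filter

namespace Pool.Agent.A1.Xlm

/-- a bounded sequence whose power series vanishes on `(0,1)` vanishes -/
theorem coef_zero {z : ℕ → ℝ} {K : ℝ} (hK : ∀ m, |z m| ≤ K)
    (h : ∀ t : ℝ, 0 < t → t < 1 → ∑' m, t ^ m * z m = 0) : ∀ m, z m = 0 := by
  have hK0 : 0 ≤ K := (abs_nonneg _).trans (hK 0)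
  have hsum : ∀ (k : ℕ) (t : ℝ), 0 < t → t < 1 → Summable fun m => t ^ m * z (m + k) := by
    intro k t h0 h1
    refine Summable.of_norm_bounded (g := fun m => t ^ m * K)
      ((summable_geometric_of_lt_one h0.le h1).mul_right K) fun m => ?_
    rw [Real.norm_eq_abs, abs_mul, abs_of_nonneg (pow_nonneg h0.le m)]
    exact mul_le_mul_of_nonneg_left (hK _) (pow_nonneg h0.le m)
  intro m
  induction m using Nat.strong_induction_on with
  | _ k ih =>
    have hz : ∀ t : ℝ, 0 < t → t < 1 → ∑' m, t ^ m * z (m + k) = 0 := by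
      intro t h0 h1
      have h2 := h t h0 h1
      have h3 := (hsum 0 t h0 h1).sum_add_tsum_nat_add k
      simp only [add_zero] at h3
      rw [h2, Finset.sum_eq_zero (fun i hi => by
        rw [ih i (Finset.mem_range.1 hi), mul_zero]), zero_add] at h3
      have h4 : ∀ m, t ^ (m + k) * z (m + k) = t ^ k * (t ^ m * z (m + k)) := by
        intro m; rw [pow_add]; ring
      rw [tsum_congr h4, tsum_mul_left] at h3
      exact (mul_eq_zero.1 h3).resolve_left (pow_pos h0 k).ne'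
    by_contra hne
    have hpos : 0 < |z k| := abs_pos.2 hne
    have hb : ∀ t : ℝ, 0 < t → t < 1 → |z k| * (1 - t) ≤ t * K := by
      intro t h0 h1
      have h2 := hz t h0 h1
      have h3 := (hsum k t h0 h1).tsum_eq_zero_add
      rw [h2] at h3
      simp only [pow_zero, one_mul, zero_add] at h3
      have h4 : z k = -∑' m, t ^ (m + 1) * z (m + 1 + k) := by linarith
      have h5 : |∑' m, t ^ (m + 1) * z (m + 1 + k)| ≤ ∑' m, t ^ (m + 1) * K := by
        have hs : Summable fun m : ℕ => t ^ (m + 1) * K := by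
          have := (summable_geometric_of_lt_one h0.le h1).mul_left (t * K)
          refine this.congr fun m => ?_
          rw [pow_succ]; ring
        rw [← Real.norm_eq_abs]
        refine tsum_of_norm_bounded hs.hasSum fun m => ?_
        rw [Real.norm_eq_abs, abs_mul, abs_of_nonneg (pow_nonneg h0.le _)]
        exact mul_le_mul_of_nonneg_left (hK _) (pow_nonneg h0.le _)
      have h6 : ∑' m, t ^ (m + 1) * K = t * K * (1 - t)⁻¹ := by
        rw [← tsum_geometric_of_lt_one h0.le h1, ← tsum_mul_left]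
        refine tsum_congr fun m => ?_
        rw [pow_succ]; ring
      rw [h6, ← abs_neg, ← h4] at h5
      have h7 : 0 < 1 - t := by linarith
      calc |z k| * (1 - t) ≤ t * K * (1 - t)⁻¹ * (1 - t) :=
            mul_le_mul_of_nonneg_right h5 h7.le
        _ = t * K := by field_simp
    set t : ℝ := |z k| / (2 * (K + |z k|)) with ht
    have hKp : 0 < K + |z k| := by linarith
    have ht0 : 0 < t := by positivity
    have ht1 : t < 1 := by
      rw [ht, div_lt_one (by positivity)]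
      linarith
    have h8 := hb t ht0 ht1
    have h9 : t * (K + |z k|) = |z k| / 2 := by
      rw [ht]; field_simp
    nlinarith

/-- equality of even power series with bounded coefficients -/
theorem coef_eq {x y : ℕ → ℝ} {Kx Ky : ℝ} (hx : ∀ m, |x m| ≤ Kx) (hy : ∀ m, |y m| ≤ Ky)
    (h : ∀ a : ℝ, 0 < a → a < 1 →
      ∑' m, a ^ (2 * (m + 1)) * x m = ∑' m, a ^ (2 * (m + 1)) * y m) : x = y := by
  have key : ∀ m, x m - y m = 0 := by
    apply coef_zero (K := Kx + Ky)
    · intro m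
      exact (abs_sub _ _).trans (add_le_add (hx m) (hy m))
    · intro t h0 h1
      have hs : ∀ (w : ℕ → ℝ) (K : ℝ), (∀ m, |w m| ≤ K) → Summable fun m => t ^ m * w m := by
        intro w K hw
        refine Summable.of_norm_bounded (g := fun m => t ^ m * K)
          ((summable_geometric_of_lt_one h0.le h1).mul_right K) fun m => ?_
        rw [Real.norm_eq_abs, abs_mul, abs_of_nonneg (pow_nonneg h0.le m)]
        exact mul_le_mul_of_nonneg_left (hw _) (pow_nonneg h0.le m)
      have h2 : ∑' m, t ^ m * (x m - y m) = ∑' m, t ^ m * x m - ∑' m, t ^ m * y m := by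
        rw [← (hs x Kx hx).tsum_sub (hs y Ky hy)]
        exact tsum_congr fun m => by ring
      have h3 := h (Real.sqrt t) (Real.sqrt_pos.2 h0) (by
        rw [Real.sqrt_lt' one_pos]; simpa using h1)
      have h4 : ∀ (w : ℕ → ℝ), ∑' m, Real.sqrt t ^ (2 * (m + 1)) * w m =
          t * ∑' m, t ^ m * w m := by
        intro w
        rw [← tsum_mul_left]
        refine tsum_congr fun m => ?_
        rw [pow_mul, Real.sq_sqrt h0.le, pow_succ]
        ring
      rw [h4, h4] at h3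
      have h5 := mul_left_cancel₀ h0.ne' h3
      rw [h2, h5, sub_self]
  funext m
  linarith [key m]

/-- exchange of the sum and the integral over `[-1,1]` -/
theorem sum_exchange {S : ℝ → ℝ} {K : ℝ} (hS : AEStronglyMeasurable S (volume.restrict (Ioc (-1) 1)))
    (hK : ∀ c ∈ Icc (-1 : ℝ) 1, |S c| ≤ K) {a : ℕ → ℝ} (ha : Summable fun m => |a m|) (k : ℕ → ℕ) :
    HasSum (fun m => a m * ∫ c in (-1 : ℝ)..1, S c * c ^ (k m))
      (∫ c in (-1 : ℝ)..1, S c * ∑' m, a m * c ^ (k m)) := by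
  have hK0 : 0 ≤ K := (abs_nonneg _).trans (hK 0 (by constructor <;> norm_num))
  have hc : ∀ c ∈ Icc (-1 : ℝ) 1, ∀ j : ℕ, |c ^ j| ≤ 1 := by
    intro c hc j
    rw [abs_pow]
    exact pow_le_one₀ (abs_nonneg _) (abs_le.2 ⟨hc.1, hc.2⟩)
  have h := intervalIntegral.hasSum_integral_of_dominated_convergence (μ := volume)
    (a := (-1 : ℝ)) (b := 1) (F := fun m c => a m * (S c * c ^ (k m)))
    (f := fun c => S c * ∑' m, a m * c ^ (k m)) (bound := fun m _ => |a m| * K) ?_ ?_ ?_ ?_ ?_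
  · simpa only [intervalIntegral.integral_const_mul] using h
  · intro m
    rw [uIoc_of_le (by norm_num)]
    exact (hS.mul (continuous_pow (k m)).aestronglyMeasurable).const_mul _
  · intro m
    refine ae_of_all _ fun c hc' => ?_
    rw [uIoc_of_le (by norm_num)] at hc'
    have hc'' : c ∈ Icc (-1 : ℝ) 1 := ⟨hc'.1.le, hc'.2⟩
    rw [Real.norm_eq_abs, abs_mul, abs_mul]
    refine mul_le_mul_of_nonneg_left ?_ (abs_nonneg _)
    calc |S c| * |c ^ k m| ≤ K * 1 := mul_le_mul (hK c hc'') (hc c hc'' _) (abs_nonneg _) hK0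
      _ = K := mul_one K
  · exact ae_of_all _ fun c _ => ha.mul_right K
  · simp only [intervalIntegrable_const]
  · refine ae_of_all _ fun c hc' => ?_
    rw [uIoc_of_le (by norm_num)] at hc'
    have hc'' : c ∈ Icc (-1 : ℝ) 1 := ⟨hc'.1.le, hc'.2⟩
    have hs : Summable fun m => a m * c ^ k m := by
      refine Summable.of_norm_bounded ha fun m => ?_
      rw [Real.norm_eq_abs, abs_mul]
      exact mul_le_of_le_one_right (abs_nonneg _) (hc c hc'' _)
    have h1 := hs.hasSum.mul_left (S c)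
    have h2 : (fun m => S c * (a m * c ^ k m)) = fun m => a m * (S c * c ^ (k m)) := by
      funext m; ring
    rwa [h2] at h1

/-- limits `e₀ → 0`, `E → ∞` in an inequality of truncated integrals -/
theorem limit_ineq {f g : ℝ → ℝ} (hf : IntegrableOn f (Ioi 0)) (hg : IntegrableOn g (Ioi 0))
    {r : ℝ → ℝ} (hr : Tendsto r atTop (𝓝 0))
    (h : ∀ e₀ E : ℝ, 0 < e₀ → e₀ ≤ 1 → 1 ≤ E → ∫ e in e₀..E, f e ≤ (∫ e in e₀..E, g e) + r E) :
    ∫ e in Ioi (0 : ℝ), f e ≤ ∫ e in Ioi (0 : ℝ), g e := by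
  have key : ∀ (φ : ℝ → ℝ), IntegrableOn φ (Ioi 0) →
      Tendsto (fun E : ℝ => ∫ e in E⁻¹..E, φ e) atTop (𝓝 (∫ e in Ioi (0 : ℝ), φ e)) := by
    intro φ hφ
    have h1 : AECover (volume.restrict (Ioi (0 : ℝ))) atTop fun E : ℝ => Ioc E⁻¹ E := by
      constructor
      · filter_upwards [ae_restrict_mem measurableSet_Ioi] with x hx
        have hx0 : (0 : ℝ) < x := hx
        filter_upwards [eventually_gt_atTop x⁻¹, eventually_ge_atTop x] with E h1 h2
        refine ⟨?_, h2⟩
        exact inv_lt_of_inv_lt₀ hx0 h1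
      · exact fun _ => measurableSet_Ioc
    have h2 := h1.integral_tendsto_of_countably_generated hφ
    refine h2.congr' ?_
    filter_upwards [eventually_ge_atTop (1 : ℝ)] with E hE
    have h3 : E⁻¹ ≤ E := (inv_le_one_of_one_le₀ hE).trans hE
    rw [intervalIntegral.integral_of_le h3]
    have h4 : (volume.restrict (Ioi (0 : ℝ))).restrict (Ioc E⁻¹ E) =
        volume.restrict (Ioc E⁻¹ E) := by
      rw [Measure.restrict_restrict measurableSet_Ioc]
      congr 1
      refine inter_eq_left.2 fun x hx => ?_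
      exact (inv_pos.2 (by linarith)).trans hx.1
    rw [h4]
  have h1 := key f hf
  have h2 := (key g hg).add hr
  rw [add_zero] at h2
  refine le_of_tendsto_of_tendsto h1 h2 ?_
  filter_upwards [eventually_ge_atTop (1 : ℝ)] with E hE
  exact h E⁻¹ E (inv_pos.2 (by linarith)) (inv_le_one_of_one_le₀ hE) hE

/-- the same for an equality -/
theorem limit_eq {f g : ℝ → ℝ} (hf : IntegrableOn f (Ioi 0)) (hg : IntegrableOn g (Ioi 0))
    {r : ℝ → ℝ} (hr : Tendsto r atTop (𝓝 0))
    (h : ∀ e₀ E : ℝ, 0 < e₀ → e₀ ≤ 1 → 1 ≤ E → ∫ e in e₀..E, f e = (∫ e in e₀..E, g e) + r E) :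
    ∫ e in Ioi (0 : ℝ), f e = ∫ e in Ioi (0 : ℝ), g e := by
  refine le_antisymm (limit_ineq hf hg hr fun e₀ E h0 h1 h2 => (h e₀ E h0 h1 h2).le) ?_
  have hr' : Tendsto (fun E => - r E) atTop (𝓝 0) := by simpa using hr.neg
  refine limit_ineq hg hf hr' fun e₀ E h0 h1 h2 => ?_
  rw [h e₀ E h0 h1 h2]
  linarith

/-- truncated integrals converge, uniformly bounded -/
theorem tendsto_trunc {φ : ℝ → ℝ} (hφ : IntegrableOn φ (Ioi 0)) :
    Tendsto (fun E : ℝ => ∫ e in E⁻¹..E, φ e) atTop (𝓝 (∫ e in Ioi (0 : ℝ), φ e)) := by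
  have h1 : AECover (volume.restrict (Ioi (0 : ℝ))) atTop fun E : ℝ => Ioc E⁻¹ E := by
    constructor
    · filter_upwards [ae_restrict_mem measurableSet_Ioi] with x hx
      have hx0 : (0 : ℝ) < x := hx
      filter_upwards [eventually_gt_atTop x⁻¹, eventually_ge_atTop x] with E h1 h2
      refine ⟨?_, h2⟩
      exact inv_lt_of_inv_lt₀ hx0 h1
    · exact fun _ => measurableSet_Ioc
  have h2 := h1.integral_tendsto_of_countably_generated hφ
  refine h2.congr' ?_
  filter_upwards [eventually_ge_atTop (1 : ℝ)] with E hE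
  have h3 : E⁻¹ ≤ E := (inv_le_one_of_one_le₀ hE).trans hE
  rw [intervalIntegral.integral_of_le h3]
  have h4 : (volume.restrict (Ioi (0 : ℝ))).restrict (Ioc E⁻¹ E) =
      volume.restrict (Ioc E⁻¹ E) := by
    rw [Measure.restrict_restrict measurableSet_Ioc]
    congr 1
    refine inter_eq_left.2 fun x hx => ?_
    exact (inv_pos.2 (by linarith)).trans hx.1
  rw [h4]

/-- dominated convergence of the truncated integrals under `∫ c in -1..1` -/
theorem tendsto_trunc2 {g : ℝ → ℝ → ℝ} {B : ℝ → ℝ} (hB : IntegrableOn B (Ioi 0))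
    (hgm : Measurable (Function.uncurry g))
    (hgB : ∀ c ∈ Icc (-1 : ℝ) 1, ∀ e : ℝ, 0 < e → |g c e| ≤ B e) :
    Tendsto (fun E : ℝ => ∫ c in (-1 : ℝ)..1, ∫ e in E⁻¹..E, g c e) atTop
      (𝓝 (∫ c in (-1 : ℝ)..1, ∫ e in Ioi (0 : ℝ), g c e)) := by
  have hsec : ∀ c, Measurable fun e => g c e := fun c =>
    hgm.comp (measurable_const.prodMk measurable_id)
  have hint : ∀ c ∈ Icc (-1 : ℝ) 1, IntegrableOn (fun e => g c e) (Ioi 0) := by
    intro c hc
    refine Integrable.mono' hB (hsec c).aestronglyMeasurable ?_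
    filter_upwards [ae_restrict_mem measurableSet_Ioi] with e he
    exact hgB c hc e he
  refine intervalIntegral.tendsto_integral_filter_of_dominated_convergence
    (fun _ => ∫ e in Ioi (0 : ℝ), B e) ?_ ?_ ?_ ?_
  · filter_upwards [eventually_ge_atTop (1 : ℝ)] with E hE
    have h3 : E⁻¹ ≤ E := (inv_le_one_of_one_le₀ hE).trans hE
    simp_rw [intervalIntegral.integral_of_le h3]
    have h5 : StronglyMeasurable (Function.uncurry g) := hgm.stronglyMeasurable
    exact (h5.integral_prod_right' (ν := volume.restrict (Ioc E⁻¹ E))).aestronglyMeasurable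
  · filter_upwards [eventually_ge_atTop (1 : ℝ)] with E hE
    have h3 : E⁻¹ ≤ E := (inv_le_one_of_one_le₀ hE).trans hE
    refine ae_of_all _ fun c hc => ?_
    rw [uIoc_of_le (by norm_num)] at hc
    have hc' : c ∈ Icc (-1 : ℝ) 1 := ⟨hc.1.le, hc.2⟩
    have hsub : Ioc E⁻¹ E ⊆ Ioi 0 := fun x hx => (inv_pos.2 (by linarith)).trans hx.1
    rw [intervalIntegral.integral_of_le h3]
    refine (norm_integral_le_of_norm_le (hB.mono_set hsub) ?_).trans ?_
    · filter_upwards [ae_restrict_mem measurableSet_Ioc] with e he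
      exact hgB c hc' e (hsub he)
    · refine setIntegral_mono_set hB ?_ (ae_of_all _ hsub)
      filter_upwards [ae_restrict_mem measurableSet_Ioi] with e he
      exact (abs_nonneg _).trans (hgB c hc' e he)
  · simp only [intervalIntegrable_const]
  · refine ae_of_all _ fun c hc => ?_
    rw [uIoc_of_le (by norm_num)] at hc
    exact tendsto_trunc (hint c ⟨hc.1.le, hc.2⟩)

/-- limits in `∫_{e₀}^E f ≤ ∫_{-1}^1 dc ∫_{e₀}^E g(c,e) + r(E)` -/
theorem limit_ineq2 {f : ℝ → ℝ} (hf : IntegrableOn f (Ioi 0)) {g : ℝ → ℝ → ℝ} {B : ℝ → ℝ}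
    (hB : IntegrableOn B (Ioi 0)) (hgm : Measurable (Function.uncurry g))
    (hgB : ∀ c ∈ Icc (-1 : ℝ) 1, ∀ e : ℝ, 0 < e → |g c e| ≤ B e)
    {r : ℝ → ℝ} (hr : Tendsto r atTop (𝓝 0))
    (h : ∀ e₀ E : ℝ, 0 < e₀ → e₀ ≤ 1 → 1 ≤ E →
      ∫ e in e₀..E, f e ≤ (∫ c in (-1 : ℝ)..1, ∫ e in e₀..E, g c e) + r E) :
    ∫ e in Ioi (0 : ℝ), f e ≤ ∫ c in (-1 : ℝ)..1, ∫ e in Ioi (0 : ℝ), g c e := by
  have h1 := tendsto_trunc hf
  have h2 := (tendsto_trunc2 hB hgm hgB).add hr
  rw [add_zero] at h2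
  refine le_of_tendsto_of_tendsto h1 h2 ?_
  filter_upwards [eventually_ge_atTop (1 : ℝ)] with E hE
  exact h E⁻¹ E (inv_pos.2 (by linarith)) (inv_le_one_of_one_le₀ hE) hE

/-- limits in `∫_{e₀}^E f = ∫_{-1}^1 dc ∫_{e₀}^E g(c,e)` -/
theorem limit_eq2 {f : ℝ → ℝ} (hf : IntegrableOn f (Ioi 0)) {g : ℝ → ℝ → ℝ} {B : ℝ → ℝ}
    (hB : IntegrableOn B (Ioi 0)) (hgm : Measurable (Function.uncurry g))
    (hgB : ∀ c ∈ Icc (-1 : ℝ) 1, ∀ e : ℝ, 0 < e → |g c e| ≤ B e)
    {r : ℝ → ℝ} (hr : Tendsto r atTop (𝓝 0))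
    (h : ∀ e₀ E : ℝ, 0 < e₀ → e₀ ≤ 1 → 1 ≤ E →
      ∫ e in e₀..E, f e = (∫ c in (-1 : ℝ)..1, ∫ e in e₀..E, g c e) + r E) :
    ∫ e in Ioi (0 : ℝ), f e = ∫ c in (-1 : ℝ)..1, ∫ e in Ioi (0 : ℝ), g c e := by
  have h1 := tendsto_trunc hf
  have h2 := (tendsto_trunc2 hB hgm hgB).add hr
  rw [add_zero] at h2
  refine tendsto_nhds_unique (h1.congr' ?_) h2
  filter_upwards [eventually_ge_atTop (1 : ℝ)] with E hE
  exact h E⁻¹ E (inv_pos.2 (by linarith)) (inv_le_one_of_one_le₀ hE) hE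

end Pool.Agent.A1.Xlm
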