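import Pool.Agent.Lib_helper59.A1.Stmts
import Pool.Agent.Lib_helper27.A1.Xlm0

/-!
# MP_859019_mp, project A1, block COE: comparison of coefficients
-/

set_option autoImplicit false

open scoped BigOperators Topology
open MeasureTheory Set Filter

namespace Pool.Agent.A1.Xlm

open Pool.Agent.A1W

/-- a sequence whose power series converges to zero on `(0,1)` vanishes -/
theorem coef_zero' {z : ℕ → ℝ} (h : ∀ t : ℝ, 0 < t → t < 1 → HasSum (fun m => t ^ m * z m) 0) :
    ∀ m, z m = 0 := by
  -- at `t = 1/2` the terms are bounded, so `|z m| ≤ K 2^m`; rescale by `t -> t/2`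
  obtain ⟨K, hK⟩ : ∃ K : ℝ, ∀ m, |(1 / 2 : ℝ) ^ m * z m| ≤ K := by
    have h1 := (h (1 / 2) (by norm_num) (by norm_num)).summable.tendsto_atTop_zero
    obtain ⟨K, hK⟩ := (h1.abs.bddAbove_range)
    exact ⟨K, fun m => hK ⟨m, rfl⟩⟩
  have h2 : ∀ m, (1 / 2 : ℝ) ^ m * z m = 0 := by
    refine coef_zero hK fun t h0 h1 => ?_
    have h3 := h (t / 2) (by linarith) (by linarith)
    rw [← h3.tsum_eq]
    refine tsum_congr fun m => ?_
    rw [div_pow, div_pow, one_pow]
    ring
  intro m
  exact (mul_eq_zero.1 (h2 m)).resolve_left (by positivity)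

theorem coe_stmt : COEStmt := by
  intro u v s hu hv
  have key : ∀ m, u m - v m = 0 := by
    apply coef_zero'
    intro t h0 h1
    have ha : Real.sqrt t ∈ Ioo (0 : ℝ) 1 := ⟨Real.sqrt_pos.2 h0, by
      rw [Real.sqrt_lt' one_pos]; simpa using h1⟩
    have h2 := (hu _ ha).sub (hv _ ha)
    rw [sub_self] at h2
    have h3 := h2.div_const t
    rw [zero_div] at h3
    have h4 : (fun m => (Real.sqrt t ^ (2 * (m + 1)) * u m -
        Real.sqrt t ^ (2 * (m + 1)) * v m) / t) = fun m => t ^ m * (u m - v m) := by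
      funext m
      rw [pow_mul, Real.sq_sqrt h0.le, pow_succ]
      field_simp
    rwa [h4] at h3
  funext m
  linarith [key m]

end Pool.Agent.A1.Xlm
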