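import Pool.Agent.Lib_helper27.A1.Xlm0

/-!
# Project A1 (MP_859019_mp): the coefficient comparison (7.4)-(7.5) in abstract form
-/

set_option autoImplicit false

open scoped BigOperators Topology
open MeasureTheory Set Filter

namespace Pool.Agent.A1.Xlm

/-- the moment inequality with constants pinned down by the scalar equality case -/
theorem xl_abstract {b T K : ℝ} {S : ℝ → ℝ}
    (hS : AEStronglyMeasurable S (volume.restrict (Ioc (-1) 1)))
    (hK : ∀ c ∈ Icc (-1 : ℝ) 1, |S c| ≤ K)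
    {I1 I2 I12 bt : ℕ → ℝ} {KI Kb : ℝ}
    (h1s : Summable fun m => |I1 m|)
    (h2b : ∀ m, |I2 m| ≤ KI) (hb0 : ∀ m, 0 < bt m) (hbK : ∀ m, bt m ≤ Kb)
    (hineq : T * ∑' m, I1 m / (2 * ((m : ℝ) + 1)) +
        b * ∫ c in (-1 : ℝ)..1, S c * ∑' m, I1 m * c ^ (2 * m + 1) ≤
      ∑' m, I12 m / (2 * ((m : ℝ) + 1)))
    (heq : ∀ a : ℝ, 0 < a → a < 1 →
      ∑' m, a ^ (2 * (m + 1)) * I2 m / (2 * ((m : ℝ) + 1)) =
        T * (∑' m, a ^ (2 * (m + 1)) * bt m / (2 * ((m : ℝ) + 1))) +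
        b * ∫ c in (-1 : ℝ)..1, S c * ∑' m, (a ^ (2 * (m + 1)) * bt m) * c ^ (2 * m + 1)) :
    ∑' m, I1 m * I2 m / (2 * ((m : ℝ) + 1) * bt m) ≤ ∑' m, I12 m / (2 * ((m : ℝ) + 1)) ∧
      Summable fun m => I1 m * I2 m / (2 * ((m : ℝ) + 1) * bt m) := by
  have hK0 : 0 ≤ K := (abs_nonneg _).trans (hK 0 (by constructor <;> norm_num))
  have hKb0 : 0 ≤ Kb := (hb0 0).le.trans (hbK 0)
  have hmp : ∀ m : ℕ, (1 : ℝ) ≤ 2 * ((m : ℝ) + 1) := fun m => by
    have : (0 : ℝ) ≤ m := Nat.cast_nonneg m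
    linarith
  -- the moments
  set μ : ℕ → ℝ := fun m => ∫ c in (-1 : ℝ)..1, S c * c ^ (2 * m + 1) with hμ
  have hμb : ∀ m, |μ m| ≤ 2 * K := by
    intro m
    have h := intervalIntegral.norm_integral_le_of_norm_le_const (a := (-1 : ℝ)) (b := 1)
      (f := fun c => S c * c ^ (2 * m + 1)) (C := K) (by
        intro c hc
        rw [uIoc_of_le (by norm_num)] at hc
        have hc' : c ∈ Icc (-1 : ℝ) 1 := ⟨hc.1.le, hc.2⟩
        rw [Real.norm_eq_abs, abs_mul, abs_pow]
        calc |S c| * |c| ^ (2 * m + 1) ≤ K * 1 :=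
              mul_le_mul (hK c hc') (pow_le_one₀ (abs_nonneg _) (abs_le.2 ⟨hc'.1, hc'.2⟩))
                (pow_nonneg (abs_nonneg _) _) hK0
          _ = K := mul_one K)
    rw [Real.norm_eq_abs] at h
    calc |μ m| ≤ K * |(1 : ℝ) - (-1)| := h
      _ = 2 * K := by norm_num; ring
  -- exchange for any absolutely summable sequence
  have hex : ∀ I : ℕ → ℝ, (Summable fun m => |I m|) →
      T * ∑' m, I m / (2 * ((m : ℝ) + 1)) +
        b * (∫ c in (-1 : ℝ)..1, S c * ∑' m, I m * c ^ (2 * m + 1)) =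
      ∑' m, I m * (T / (2 * ((m : ℝ) + 1)) + b * μ m) ∧
      Summable fun m => I m * (T / (2 * ((m : ℝ) + 1)) + b * μ m) := by
    intro I hI
    have e1 := sum_exchange hS hK hI (fun m => 2 * m + 1)
    have hsI : Summable fun m => I m / (2 * ((m : ℝ) + 1)) := by
      refine Summable.of_norm_bounded hI fun m => ?_
      rw [Real.norm_eq_abs, abs_div, abs_of_pos (by linarith [hmp m] : (0 : ℝ) < 2 * ((m : ℝ) + 1))]
      exact div_le_self (abs_nonneg _) (hmp m)
    have h3 := (hsI.hasSum.mul_left T).add (e1.mul_left b)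
    have h4 : (fun m => T * (I m / (2 * ((m : ℝ) + 1))) +
        b * (I m * ∫ c in (-1 : ℝ)..1, S c * c ^ (2 * m + 1))) =
        fun m => I m * (T / (2 * ((m : ℝ) + 1)) + b * μ m) := by
      funext m
      simp only [hμ]
      ring
    rw [h4] at h3
    exact ⟨h3.tsum_eq.symm, h3.summable⟩
  -- coefficients
  have hco : (fun m => I2 m / (2 * ((m : ℝ) + 1))) =
      fun m => bt m * (T / (2 * ((m : ℝ) + 1)) + b * μ m) := by
    refine coef_eq (Kx := KI) (Ky := Kb * (|T| + |b| * (2 * K))) ?_ ?_ ?_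
    · intro m
      rw [abs_div, abs_of_pos (by linarith [hmp m] : (0 : ℝ) < 2 * ((m : ℝ) + 1))]
      exact (div_le_self (abs_nonneg _) (hmp m)).trans (h2b m)
    · intro m
      rw [abs_mul, abs_of_pos (hb0 m)]
      refine mul_le_mul (hbK m) ((abs_add_le _ _).trans (add_le_add ?_ ?_)) (abs_nonneg _) hKb0
      · rw [abs_div, abs_of_pos (by linarith [hmp m] : (0 : ℝ) < 2 * ((m : ℝ) + 1))]
        exact div_le_self (abs_nonneg _) (hmp m)
      · rw [abs_mul]
        exact mul_le_mul_of_nonneg_left (hμb m) (abs_nonneg _)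
    · intro a h0 h1
      have hsa : Summable fun m : ℕ => |a ^ (2 * (m + 1)) * bt m| := by
        have ha2 : a ^ 2 < 1 := by nlinarith
        refine Summable.of_norm_bounded (g := fun m : ℕ => a ^ 2 * Kb * (a ^ 2) ^ m)
          ((summable_geometric_of_lt_one (by positivity) ha2).mul_left _) fun m => ?_
        rw [Real.norm_eq_abs, abs_abs, abs_mul, abs_of_nonneg (by positivity), abs_of_pos (hb0 m)]
        calc a ^ (2 * (m + 1)) * bt m ≤ a ^ (2 * (m + 1)) * Kb :=
              mul_le_mul_of_nonneg_left (hbK m) (by positivity)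
          _ = a ^ 2 * Kb * (a ^ 2) ^ m := by rw [← pow_mul]; ring
      have h2 := heq a h0 h1
      have h3 := (hex (fun m => a ^ (2 * (m + 1)) * bt m) hsa).1
      rw [h3] at h2
      calc ∑' m, a ^ (2 * (m + 1)) * (I2 m / (2 * ((m : ℝ) + 1)))
          = ∑' m, a ^ (2 * (m + 1)) * I2 m / (2 * ((m : ℝ) + 1)) :=
            tsum_congr fun m => by ring
        _ = _ := h2
        _ = _ := tsum_congr fun m => by ring
  have hfin : (fun m => I1 m * (T / (2 * ((m : ℝ) + 1)) + b * μ m)) =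
      fun m => I1 m * I2 m / (2 * ((m : ℝ) + 1) * bt m) := by
    funext m
    have h1 := congrFun hco m
    have h2 : T / (2 * ((m : ℝ) + 1)) + b * μ m = I2 m / (2 * ((m : ℝ) + 1)) / bt m := by
      rw [h1, mul_div_cancel_left₀ _ (hb0 m).ne']
    rw [h2, div_div]
    ring
  obtain ⟨h5, h6⟩ := hex I1 h1s
  rw [h5] at hineq
  rw [hfin] at hineq h6
  exact ⟨hineq, h6⟩

end Pool.Agent.A1.Xlm
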