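import Pool.Agent.Lib_helper59.A1.Stmts
import Pool.Agent.Lib_helper27.A1.Xlm0
import Pool.Agent.Lib_helper95.RC.Main02

/-!
# MP_859019_mp, project A1, block XLM: the moment form
-/

set_option autoImplicit false

open scoped BigOperators ComplexOrder Kronecker MatrixOrder Topology
open MeasureTheory Set Matrix Filter

namespace Pool.Agent.A1.Xlm

open Pool.Agent.RC Pool.Agent.A1 Pool.Agent.A1W

variable {ι κ ν : Type} [Fintype ι] [DecidableEq ι] [Fintype κ] [DecidableEq κ]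
  [Fintype ν] [DecidableEq ν]

/-! ### pairs -/

omit [Fintype ι] [DecidableEq ι] in
theorem spair_neg {R D : Matrix ι ι ℂ} (h : SPair R D) : SPair R (-D) :=
  ⟨by rw [sub_neg_eq_add]; exact h.add, by rw [← sub_eq_add_neg]; exact h.sub⟩

theorem spair_isPair {R D : Matrix ι ι ℂ} (h : SPair R D) : IsPair R D :=
  ⟨h.posDef, h.sub.posSemidef, h.add.posSemidef⟩

omit [Fintype κ] [DecidableEq κ] in
theorem pair_self {R : Matrix κ κ ℂ} (h : R.PosDef) : IsPair R R :=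
  ⟨h, by rw [sub_self]; exact Matrix.PosSemidef.zero, h.posSemidef.add h.posSemidef⟩

theorem spair_scalar {a : ℝ} (ha : a ∈ Ioo (-1 : ℝ) 1) :
    SPair (1 : Matrix Unit Unit ℂ) ((a : ℂ) • 1) := by
  have key : ∀ x : ℝ, 0 < x → ((x : ℂ) • (1 : Matrix Unit Unit ℂ)).PosDef := fun x hx =>
    Matrix.PosDef.one.smul (by exact_mod_cast hx)
  constructor
  · have h := key (1 - a) (by linarith [ha.2])
    have e : ((1 - a : ℝ) : ℂ) • (1 : Matrix Unit Unit ℂ) = 1 - (a : ℂ) • 1 := by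
      push_cast; rw [sub_smul, one_smul]
    rwa [e] at h
  · have h := key (1 + a) (by linarith [ha.1])
    have e : ((1 + a : ℝ) : ℂ) • (1 : Matrix Unit Unit ℂ) = 1 + (a : ℂ) • 1 := by
      push_cast; rw [add_smul, one_smul]
    rwa [e] at h

/-! ### continuity of the logarithm of the determinant -/

theorem continuousOn_ld {M : Matrix ν ν ℂ} (hM : M.PosSemidef) :
    ContinuousOn (fun e : ℝ => ld (1 + (e : ℂ) • M)) (Ici 0) := by
  unfold ld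
  refine ContinuousOn.log ?_ ?_
  · refine Continuous.continuousOn ?_
    refine Complex.continuous_re.comp (Continuous.matrix_det ?_)
    exact continuous_const.add (Complex.continuous_ofReal.smul continuous_const)
  · intro e he
    have he0 : (0 : ℝ) ≤ e := he
    have h1 : (1 + (e : ℂ) • M).PosDef :=
      Matrix.PosDef.one.add_posSemidef (hM.smul (by exact_mod_cast he0))
    have h2 := h1.det_pos
    exact (Complex.pos_iff.1 h2).1.ne'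

theorem continuousOn_GG {R₁ D₁ : Matrix ι ι ℂ} {R₂ D₂ : Matrix κ κ ℂ} (h₁ : SPair R₁ D₁)
    (h₂ : SPair R₂ D₂) : ContinuousOn (fun e : ℝ => GG R₁ D₁ R₂ D₂ e) (Ici 0) := by
  unfold GG
  refine ((continuousOn_const.mul (continuousOn_ld (M_posDef h₁ h₂).posSemidef)).sub
    (continuousOn_ld ?_)).sub (continuousOn_ld ?_)
  · exact (h₁.add.kronecker h₂.posDef).posSemidef
  · exact (h₁.sub.kronecker h₂.posDef).posSemidef

theorem ii_GG {R₁ D₁ : Matrix ι ι ℂ} {R₂ D₂ : Matrix κ κ ℂ} (h₁ : SPair R₁ D₁)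
    (h₂ : SPair R₂ D₂) (α : ℝ) {e₀ E : ℝ} (h0 : 0 < e₀) (hE : e₀ ≤ E) :
    IntervalIntegrable (fun e => e ^ (-1 - α) * GG R₁ D₁ R₂ D₂ e) volume e₀ E := by
  refine ContinuousOn.intervalIntegrable ?_
  rw [uIcc_of_le hE]
  refine ContinuousOn.mul ?_ ((continuousOn_GG h₁ h₂).mono fun e he => h0.le.trans he.1)
  intro e he
  exact (Real.continuousAt_rpow_const e _ (Or.inl (h0.trans_le he.1).ne')).continuousWithinAt

/-! ### scalar first factor -/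

theorem tn_smul_right (A D : Matrix ι ι ℂ) (a : ℝ) (n : ℕ) (r : ℝ) :
    tn A ((a : ℂ) • D) n r = a ^ n * tn A D n r := by
  unfold tn
  rw [Matrix.mul_smul, smul_pow, Matrix.trace_smul, smul_eq_mul, ← Complex.ofReal_pow,
    Complex.re_ofReal_mul]

theorem In_smul_right (α : ℝ) (A D : Matrix ι ι ℂ) (a : ℝ) (n : ℕ) :
    In α A ((a : ℂ) • D) n = a ^ n * In α A D n := by
  unfold In
  rw [← integral_const_mul]
  refine setIntegral_congr_fun measurableSet_Ioi fun r _ => ?_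
  show r ^ (α - 1) * tn A ((a : ℂ) • D) n r = a ^ n * (r ^ (α - 1) * tn A D n r)
  rw [tn_smul_right]; ring

theorem tn_unit_kron (A D : Matrix κ κ ℂ) (n : ℕ) (r : ℝ) :
    tn ((1 : Matrix Unit Unit ℂ) ⊗ₖ A) ((1 : Matrix Unit Unit ℂ) ⊗ₖ D) n r = tn A D n r := by
  unfold tn Res
  have e1 : (1 : Matrix Unit Unit ℂ) ⊗ₖ A + (r : ℂ) • (1 : Matrix (Unit × κ) (Unit × κ) ℂ) =
      (1 : Matrix Unit Unit ℂ) ⊗ₖ (A + (r : ℂ) • (1 : Matrix κ κ ℂ)) := by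
    rw [Matrix.kronecker_add, Matrix.kronecker_smul, Matrix.one_kronecker_one]
  have e2 : ∀ X : Matrix κ κ ℂ, ((1 : Matrix Unit Unit ℂ) ⊗ₖ X) ^ n =
      (1 : Matrix Unit Unit ℂ) ⊗ₖ (X ^ n) := by
    intro X
    induction n with
    | zero => rw [pow_zero, pow_zero, Matrix.one_kronecker_one]
    | succ n ih => rw [pow_succ, ih, ← Matrix.mul_kronecker_mul, Matrix.mul_one, pow_succ]
  rw [e1, Matrix.inv_kronecker, inv_one, ← Matrix.mul_kronecker_mul, Matrix.mul_one, e2,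
    Matrix.trace_kronecker]
  simp

theorem In_unit_kron (α a : ℝ) (A D : Matrix κ κ ℂ) (n : ℕ) :
    In α ((1 : Matrix Unit Unit ℂ) ⊗ₖ A) (((a : ℂ) • (1 : Matrix Unit Unit ℂ)) ⊗ₖ D) n =
      a ^ n * In α A D n := by
  rw [Matrix.smul_kronecker, In_smul_right]
  congr 1
  unfold In
  refine setIntegral_congr_fun measurableSet_Ioi fun r _ => ?_
  show r ^ (α - 1) * tn _ _ n r = r ^ (α - 1) * tn A D n r
  rw [tn_unit_kron]

/-! ### dominated convergence -/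

theorem tendsto_trunc3 {g : ℝ → ℝ → ℝ} {B : ℝ → ℝ} (hB : IntegrableOn B (Ioi 0))
    (hgi : ∀ c ∈ Icc (-1 : ℝ) 1, IntegrableOn (g c) (Ioi 0))
    (hgm : ∀ E : ℝ, 1 ≤ E → IntervalIntegrable (fun c => ∫ e in E⁻¹..E, g c e) volume (-1) 1)
    (hgB : ∀ c ∈ Icc (-1 : ℝ) 1, ∀ e : ℝ, 0 < e → |g c e| ≤ B e) :
    Tendsto (fun E : ℝ => ∫ c in (-1 : ℝ)..1, ∫ e in E⁻¹..E, g c e) atTop
      (𝓝 (∫ c in (-1 : ℝ)..1, ∫ e in Ioi (0 : ℝ), g c e)) := by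
  refine intervalIntegral.tendsto_integral_filter_of_dominated_convergence
    (fun _ => ∫ e in Ioi (0 : ℝ), B e) ?_ ?_ ?_ ?_
  · filter_upwards [eventually_ge_atTop (1 : ℝ)] with E hE
    rw [uIoc_of_le (by norm_num)]
    exact ((intervalIntegrable_iff_integrableOn_Ioc_of_le (by norm_num)).1
      (hgm E hE)).aestronglyMeasurable
  · filter_upwards [eventually_ge_atTop (1 : ℝ)] with E hE
    have h3 : E⁻¹ ≤ E := (inv_le_one_of_one_le₀ hE).trans hE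
    refine ae_of_all _ fun c hc => ?_
    rw [uIoc_of_le (by norm_num)] at hc
    have hc' : c ∈ Icc (-1 : ℝ) 1 := ⟨hc.1.le, hc.2⟩
    have hsub : Ioc E⁻¹ E ⊆ Ioi 0 := fun x hx => (inv_pos.2 (by linarith)).trans hx.1
    rw [intervalIntegral.integral_of_le h3]
    refine (norm_integral_le_of_norm_le (hB.mono_set hsub) ?_).trans ?_
    · filter_upwards [ae_restrict_mem measurableSet_Ioc] with e he
      exact hgB c hc' e (hsub he)
    · refine setIntegral_mono_set hB ?_ (ae_of_all _ hsub)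
      filter_upwards [ae_restrict_mem measurableSet_Ioi] with e he
      exact (abs_nonneg _).trans (hgB c hc' e he)
  · simp only [intervalIntegrable_const]
  · refine ae_of_all _ fun c hc => ?_
    rw [uIoc_of_le (by norm_num)] at hc
    exact tendsto_trunc (hgi c ⟨hc.1.le, hc.2⟩)

theorem integrable_B {α : ℝ} (h0 : 0 < α) (h2 : α < 2) (K : ℝ) :
    IntegrableOn (fun e : ℝ => e ^ (-α) * (K * min e (1 / e))) (Ioi 0) := by
  have h : IntegrableOn (fun e : ℝ => e ^ (-α) * min e (1 / e)) (Ioi 0) := by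
    rw [← Ioc_union_Ioi_eq_Ioi (zero_le_one' ℝ)]
    refine IntegrableOn.union ?_ ?_
    · have h1 : IntegrableOn (fun e : ℝ => e ^ (1 - α)) (Ioc 0 1) := by
        rw [← intervalIntegrable_iff_integrableOn_Ioc_of_le zero_le_one]
        exact intervalIntegral.intervalIntegrable_rpow' (by linarith)
      refine h1.congr_fun (fun e he => ?_) measurableSet_Ioc
      have he0 : 0 < e := he.1
      show e ^ (1 - α) = e ^ (-α) * min e (1 / e)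
      have hm : min e (1 / e) = e := by
        refine min_eq_left ?_
        rw [le_div_iff₀ he0]
        nlinarith [he.2]
      rw [hm]
      nth_rewrite 3 [← Real.rpow_one e]
      rw [← Real.rpow_add he0]
      congr 1; ring
    · have h1 : IntegrableOn (fun e : ℝ => e ^ (-1 - α)) (Ioi 1) :=
        integrableOn_Ioi_rpow_of_lt (by linarith) one_pos
      refine h1.congr_fun (fun e he => ?_) measurableSet_Ioi
      have he1 : (1 : ℝ) < e := he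
      have he0 : 0 < e := by linarith
      show e ^ (-1 - α) = e ^ (-α) * min e (1 / e)
      have hm : min e (1 / e) = e ^ (-1 : ℝ) := by
        rw [Real.rpow_neg_one, ← one_div]
        refine min_eq_right ?_
        rw [div_le_iff₀ he0]
        nlinarith
      rw [hm, ← Real.rpow_add he0]
      congr 1; ring
  have h3 : IntegrableOn (fun e : ℝ => K * (e ^ (-α) * min e (1 / e))) (Ioi 0) := h.const_mul K
  refine h3.congr_fun (fun e _ => ?_) measurableSet_Ioi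
  show K * (e ^ (-α) * min e (1 / e)) = e ^ (-α) * (K * min e (1 / e))
  ring

/-! ### the limit -/

/-- the symmetrised truncated right side -/
theorem qs_split (hINT : INTStmt) {R₁ D₁ : Matrix ι ι ℂ} {R₂ D₂ : Matrix κ κ ℂ}
    (h₁ : SPair R₁ D₁) (h₂ : SPair R₂ D₂) (α : ℝ) {e₀ E : ℝ} (h0 : 0 < e₀) (hE : e₀ ≤ E) :
    IntervalIntegrable (fun c => ∫ e in e₀..E, e ^ (-α) * qs R₁ D₁ R₂ D₂ c e) volume (-1) 1 ∧
    (∫ c in (-1 : ℝ)..1, ∫ e in e₀..E, e ^ (-α) * qc R₁ D₁ R₂ D₂ c e) +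
      (∫ c in (-1 : ℝ)..1, ∫ e in e₀..E, e ^ (-α) * qc R₁ (-D₁) R₂ D₂ c e) =
      ∫ c in (-1 : ℝ)..1, ∫ e in e₀..E, e ^ (-α) * qs R₁ D₁ R₂ D₂ c e := by
  obtain ⟨-, -, -, a1, a2, -⟩ := hINT ι κ R₁ D₁ R₂ D₂ h₁ h₂ α e₀ E h0 hE
  obtain ⟨-, -, -, b1, b2, -⟩ := hINT ι κ R₁ (-D₁) R₂ D₂ (spair_neg h₁) h₂ α e₀ E h0 hE
  have key : ∀ c ∈ Icc (-1 : ℝ) 1, ∫ e in e₀..E, e ^ (-α) * qs R₁ D₁ R₂ D₂ c e =
      (∫ e in e₀..E, e ^ (-α) * qc R₁ D₁ R₂ D₂ c e) +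
        ∫ e in e₀..E, e ^ (-α) * qc R₁ (-D₁) R₂ D₂ c e := by
    intro c hc
    rw [← intervalIntegral.integral_add (a1 c hc) (b1 c hc)]
    refine intervalIntegral.integral_congr fun e _ => ?_
    show e ^ (-α) * (qc R₁ D₁ R₂ D₂ c e + qc R₁ (-D₁) R₂ D₂ c e) = _
    ring
  constructor
  · refine (a2.add b2).congr fun c hc => ?_
    rw [uIoc_of_le (by norm_num)] at hc
    exact (key c ⟨hc.1.le, hc.2⟩).symm
  · rw [← intervalIntegral.integral_add a2 b2]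
    refine intervalIntegral.integral_congr fun c hc => ?_
    rw [uIcc_of_le (by norm_num)] at hc
    exact (key c hc).symm

/-- the data common to the inequality and to the equality case -/
theorem lim_data (hINT : INTStmt) (hLOG : LOGStmt) (hTEN : TENStmt) {α : ℝ} (h0 : 0 < α)
    (h2 : α < 2) (h1 : α ≠ 1) {A₂ D₂ : Matrix κ κ ℂ} (hs₂ : SPair A₂ D₂) {S : ℝ → ℝ}
    (hSi : IntervalIntegrable S volume (-1) 1) {K : ℝ} (hK : ∀ c ∈ Icc (-1 : ℝ) 1, |S c| ≤ K)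
    {T : ℝ}
    {A₁ D₁ : Matrix ι ι ℂ} (hs₁ : SPair A₁ D₁)
    (hT : ∀ m : ℕ, In α (A₁ ⊗ₖ A₂) (D₁ ⊗ₖ A₂) (2 * (m + 1)) = T * In α A₁ D₁ (2 * (m + 1)))
    (hsum : Summable (fun m : ℕ => In α A₁ D₁ (2 * (m + 1))))
    {K' : ℝ} (hq : ∀ c ∈ Icc (-1 : ℝ) 1, ∀ e : ℝ, 0 < e →
      |qs A₁ D₁ A₂ D₂ c e| ≤ K' * min e (1 / e))
    (hM : ∀ c ∈ Icc (-1 : ℝ) 1,
      IntegrableOn (fun e : ℝ => e ^ (-α) * qs A₁ D₁ A₂ D₂ c e) (Ioi 0) ∧
      ∫ e in Ioi (0 : ℝ), e ^ (-α) * qs A₁ D₁ A₂ D₂ c e = S c * hh α A₁ D₁ c) :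
    ∃ I₁ I₂ M : ℝ,
      HasSum (fun m : ℕ => T * In α A₁ D₁ (2 * (m + 1)) / (2 * ((m : ℝ) + 1))) (I₁ / 2) ∧
      HasSum (fun m : ℕ => In α (A₁ ⊗ₖ A₂) (D₁ ⊗ₖ D₂) (2 * (m + 1)) / (2 * ((m : ℝ) + 1)))
        (I₂ / 2) ∧
      HasSum (fun m : ℕ => In α A₁ D₁ (2 * (m + 1)) * ∫ c in (-1 : ℝ)..1, S c * c ^ (2 * m + 1)) M ∧
      Tendsto (fun E : ℝ => ∫ e in E⁻¹..E, e ^ (-1 - α) *
        (GG A₁ D₁ A₂ D₂ e + GG A₁ (-D₁) A₂ D₂ e)) atTop (𝓝 (2 * I₁ - 2 * I₂)) ∧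
      Tendsto (fun E : ℝ => ∫ c in (-1 : ℝ)..1, ∫ e in E⁻¹..E, e ^ (-α) * qs A₁ D₁ A₂ D₂ c e) atTop
        (𝓝 M) := by
  have p1 : IsPair A₁ D₁ := spair_isPair hs₁
  have p2 : IsPair A₂ D₂ := spair_isPair hs₂
  have p12 : IsPair (A₁ ⊗ₖ A₂) (D₁ ⊗ₖ D₂) := p1.kron p2
  have p1R : IsPair (A₁ ⊗ₖ A₂) (D₁ ⊗ₖ A₂) := p1.kron (pair_self p2.pos)
  obtain ⟨i1, s1⟩ := hLOG α h0 h2 h1 (ι × κ) _ _ p1R
  obtain ⟨i2, s2⟩ := hLOG α h0 h2 h1 (ι × κ) _ _ p12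
  set I₁ := ∫ e in Ioi (0 : ℝ), e ^ (-1 - α) * LD (A₁ ⊗ₖ A₂) (D₁ ⊗ₖ A₂) e with hI₁
  set I₂ := ∫ e in Ioi (0 : ℝ), e ^ (-1 - α) * LD (A₁ ⊗ₖ A₂) (D₁ ⊗ₖ D₂) e with hI₂
  have hSm : AEStronglyMeasurable S (volume.restrict (Ioc (-1) 1)) :=
    ((intervalIntegrable_iff_integrableOn_Ioc_of_le (by norm_num)).1 hSi).aestronglyMeasurable
  have hex := sum_exchange hSm hK hsum.abs (fun m => 2 * m + 1)
  refine ⟨I₁, I₂, ∫ c in (-1 : ℝ)..1, S c * ∑' m, In α A₁ D₁ (2 * (m + 1)) * c ^ (2 * m + 1),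
    ?_, ?_, hex, ?_, ?_⟩
  · have e : I₁ / 2 = 1 / 2 * I₁ := by ring
    rw [e]
    simpa only [hT] using s1
  · have e : I₂ / 2 = 1 / 2 * I₂ := by ring
    rw [e]
    exact s2
  · have hf : (fun e : ℝ => e ^ (-1 - α) * (GG A₁ D₁ A₂ D₂ e + GG A₁ (-D₁) A₂ D₂ e)) =
        fun e => 2 * (e ^ (-1 - α) * LD (A₁ ⊗ₖ A₂) (D₁ ⊗ₖ A₂) e) -
          2 * (e ^ (-1 - α) * LD (A₁ ⊗ₖ A₂) (D₁ ⊗ₖ D₂) e) := by
      funext e
      rw [hTEN.2]; ring
    have hi : IntegrableOn (fun e : ℝ => e ^ (-1 - α) *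
        (GG A₁ D₁ A₂ D₂ e + GG A₁ (-D₁) A₂ D₂ e)) (Ioi 0) := by
      rw [hf]
      exact (i1.const_mul 2).sub (i2.const_mul 2)
    have hv : ∫ e in Ioi (0 : ℝ), e ^ (-1 - α) *
        (GG A₁ D₁ A₂ D₂ e + GG A₁ (-D₁) A₂ D₂ e) = 2 * I₁ - 2 * I₂ := by
      rw [hf, integral_sub (i1.const_mul 2) (i2.const_mul 2), integral_const_mul,
        integral_const_mul]
    rw [← hv]
    exact tendsto_trunc hi
  · have hv : ∫ c in (-1 : ℝ)..1, ∫ e in Ioi (0 : ℝ), e ^ (-α) * qs A₁ D₁ A₂ D₂ c e =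
        ∫ c in (-1 : ℝ)..1, S c * ∑' m, In α A₁ D₁ (2 * (m + 1)) * c ^ (2 * m + 1) := by
      refine intervalIntegral.integral_congr fun c hc => ?_
      rw [uIcc_of_le (by norm_num)] at hc
      show ∫ e in Ioi (0 : ℝ), e ^ (-α) * qs A₁ D₁ A₂ D₂ c e = _
      rw [(hM c hc).2]
      show S c * hh α A₁ D₁ c = S c * _
      congr 1
      unfold hh
      exact tsum_congr fun m => mul_comm _ _
    rw [← hv]
    refine tendsto_trunc3 (integrable_B h0 h2 K') (fun c hc => (hM c hc).1) ?_ ?_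
    · intro E hE
      have hE0 : 0 < E⁻¹ := inv_pos.2 (by linarith)
      exact (qs_split hINT hs₁ hs₂ α hE0 ((inv_le_one_of_one_le₀ hE).trans hE)).1
    · intro c hc e he
      rw [abs_mul, abs_of_nonneg (Real.rpow_nonneg he.le _)]
      exact mul_le_mul_of_nonneg_left (hq c hc e he) (Real.rpow_nonneg he.le _)

/-- XLM -/
theorem xlm_stmt (hINT : INTStmt) (hPR2 : PR2Stmt) (hPRE : PREStmt) (hMEL : MELStmt)
    (hLOG : LOGStmt) (hTEN : TENStmt) : XLMStmt := by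
  intro α h0 h2 h1 κ _ _ A₂ D₂ hs₂
  obtain ⟨S, hSi, ⟨K, hK⟩, hM⟩ := hMEL α h0 h2 h1 κ A₂ D₂ hs₂
  obtain ⟨T, hT⟩ := hTEN.1 α h0 κ A₂ hs₂.posDef
  refine ⟨fun m => T / (2 * ((m : ℝ) + 1)) - (∫ c in (-1 : ℝ)..1, S c * c ^ (2 * m + 1)) / 4,
    ?_, ?_⟩
  · intro ι _ _ A₁ D₁ hs₁
    obtain ⟨hsum, ⟨K', hq⟩, hMc⟩ := hM ι A₁ D₁ hs₁
    obtain ⟨I₁, I₂, M, s1, s2, s3, t1, t2⟩ := lim_data hINT hLOG hTEN h0 h2 h1 hs₂ hSi hK hs₁
      (hT ι A₁ D₁ (spair_isPair hs₁)) hsum hq hMc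
    have hs : HasSum (fun m : ℕ => In α A₁ D₁ (2 * (m + 1)) *
        (T / (2 * ((m : ℝ) + 1)) - (∫ c in (-1 : ℝ)..1, S c * c ^ (2 * m + 1)) / 4))
        (I₁ / 2 - M / 4) := by
      have h4 := s1.sub (s3.div_const 4)
      have h5 : (fun m : ℕ => T * In α A₁ D₁ (2 * (m + 1)) / (2 * ((m : ℝ) + 1)) -
          In α A₁ D₁ (2 * (m + 1)) * (∫ c in (-1 : ℝ)..1, S c * c ^ (2 * m + 1)) / 4) =
          fun m : ℕ => In α A₁ D₁ (2 * (m + 1)) *
        (T / (2 * ((m : ℝ) + 1)) - (∫ c in (-1 : ℝ)..1, S c * c ^ (2 * m + 1)) / 4) := by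
        funext m; ring
      rwa [h5] at h4
    obtain ⟨Ka, hKa⟩ := hPR2 ι κ A₁ D₁ A₂ D₂ hs₁ hs₂
    obtain ⟨Kb, hKb⟩ := hPR2 ι κ A₁ (-D₁) A₂ D₂ (spair_neg hs₁) hs₂
    have hle : 2 * I₁ - 2 * I₂ ≤ M := by
      have hr : Tendsto (fun E : ℝ => (Ka + Kb) * E ^ (-α)) atTop (𝓝 0) := by
        have := (tendsto_rpow_neg_atTop h0).const_mul (Ka + Kb)
        rwa [mul_zero] at this
      have t3 := t2.add hr
      rw [add_zero] at t3
      refine le_of_tendsto_of_tendsto t1 t3 ?_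
      filter_upwards [eventually_ge_atTop (1 : ℝ)] with E hE
      have hE0 : 0 < E⁻¹ := inv_pos.2 (by linarith)
      have hEE : E⁻¹ ≤ E := (inv_le_one_of_one_le₀ hE).trans hE
      have a1 := hKa α E⁻¹ E h0 h2.le hE0 hEE
      have a2 := hKb α E⁻¹ E h0 h2.le hE0 hEE
      have a3 := (qs_split hINT hs₁ hs₂ α hE0 hEE).2
      have a4 : ∫ e in E⁻¹..E, e ^ (-1 - α) * (GG A₁ D₁ A₂ D₂ e + GG A₁ (-D₁) A₂ D₂ e) =
          (∫ e in E⁻¹..E, e ^ (-1 - α) * GG A₁ D₁ A₂ D₂ e) +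
            ∫ e in E⁻¹..E, e ^ (-1 - α) * GG A₁ (-D₁) A₂ D₂ e := by
        rw [← intervalIntegral.integral_add (ii_GG hs₁ hs₂ α hE0 hEE)
          (ii_GG (spair_neg hs₁) hs₂ α hE0 hEE)]
        simp only [mul_add]
      rw [a4, ← a3]
      linarith
    refine ⟨hs.summable, ?_⟩
    rw [hs.tsum_eq, s2.tsum_eq]
    linarith
  · intro a ha
    have ha' : a ∈ Ioo (-1 : ℝ) 1 := ⟨by linarith [ha.1], ha.2⟩
    have hna : -a ∈ Ioo (-1 : ℝ) 1 := ⟨by linarith [ha.2], by linarith [ha.1]⟩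
    have hs₁ := spair_scalar ha'
    set D₁ : Matrix Unit Unit ℂ := (a : ℂ) • 1 with hD₁
    have hneg : -D₁ = ((-a : ℝ) : ℂ) • (1 : Matrix Unit Unit ℂ) := by
      rw [hD₁]; push_cast; rw [neg_smul]
    obtain ⟨hsum, ⟨K', hq⟩, hMc⟩ := hM Unit 1 D₁ hs₁
    obtain ⟨I₁, I₂, M, s1, s2, s3, t1, t2⟩ := lim_data hINT hLOG hTEN h0 h2 h1 hs₂ hSi hK hs₁
      (hT Unit 1 D₁ (spair_isPair hs₁)) hsum hq hMc
    have heq : 2 * I₁ - 2 * I₂ = M := by
      refine tendsto_nhds_unique (t1.congr' ?_) t2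
      filter_upwards [eventually_ge_atTop (1 : ℝ)] with E hE
      have hE0 : 0 < E⁻¹ := inv_pos.2 (by linarith)
      have hEE : E⁻¹ ≤ E := (inv_le_one_of_one_le₀ hE).trans hE
      have a1 := hPRE κ A₂ D₂ hs₂ a ha' α E⁻¹ E hE0 hEE
      have a2 := hPRE κ A₂ D₂ hs₂ (-a) hna α E⁻¹ E hE0 hEE
      rw [← hneg] at a2
      rw [← hD₁] at a1
      have a3 := (qs_split hINT hs₁ hs₂ α hE0 hEE).2
      rw [← a3, ← a1, ← a2, ← intervalIntegral.integral_add (ii_GG hs₁ hs₂ α hE0 hEE)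
          (ii_GG (spair_neg hs₁) hs₂ α hE0 hEE)]
      simp only [mul_add]
    have e1 : ∀ m : ℕ, In α (1 : Matrix Unit Unit ℂ) D₁ (2 * (m + 1)) =
        a ^ (2 * (m + 1)) * bet α (2 * (m + 1)) := by
      intro m
      rw [hD₁, In_smul_right, In_one]
    have e2 : ∀ m : ℕ, In α ((1 : Matrix Unit Unit ℂ) ⊗ₖ A₂) (D₁ ⊗ₖ D₂) (2 * (m + 1)) =
        a ^ (2 * (m + 1)) * In α A₂ D₂ (2 * (m + 1)) := by
      intro m
      rw [hD₁, In_unit_kron]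
    have hs := s1.sub (s3.div_const 4)
    simp only [e1] at hs
    simp only [e2] at s2
    have h5 : ∑' m : ℕ, a ^ (2 * (m + 1)) * (In α A₂ D₂ (2 * (m + 1)) / (2 * ((m : ℝ) + 1))) =
        I₁ / 2 - M / 4 := by
      have h6 : ∑' m : ℕ, a ^ (2 * (m + 1)) * (In α A₂ D₂ (2 * (m + 1)) / (2 * ((m : ℝ) + 1))) =
          I₂ / 2 := by
        rw [← s2.tsum_eq]
        exact tsum_congr fun m => by ring
      rw [h6]
      linarith
    rw [h5]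
    have h7 : (fun m : ℕ => a ^ (2 * (m + 1)) * (bet α (2 * (m + 1)) *
        (T / (2 * ((m : ℝ) + 1)) - (∫ c in (-1 : ℝ)..1, S c * c ^ (2 * m + 1)) / 4))) =
        fun m : ℕ => T * (a ^ (2 * (m + 1)) * bet α (2 * (m + 1))) / (2 * ((m : ℝ) + 1)) -
          a ^ (2 * (m + 1)) * bet α (2 * (m + 1)) *
            (∫ c in (-1 : ℝ)..1, S c * c ^ (2 * m + 1)) / 4 := by
      funext m; ring
    rw [h7]
    exact hs

end Pool.Agent.A1.Xlm
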